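import Pool.Agent.N922.PY.Stm

/-!
# Project PY (helper922), INFA: a good representative near infinity

Written by helper126.
-/

set_option autoImplicit false
set_option linter.all false

open Polynomial

namespace Pool.Agent.N126.PY

open Pool.Agent.N922.PY
open Pool.Agent.Y723.HJ

section basics

lemma r2_zero_dvd {a : ℤ_[2][X]} (h : r2 a = 0) : ∃ e : ℤ_[2][X], a = 2 * e := by
  have h1 : (C (2 : ℤ_[2])) ∣ a := by
    rw [C_dvd_iff_dvd_coeff]
    intro i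
    have h2 : PadicInt.toZMod (p := 2) (a.coeff i) = 0 := by
      have := congrArg (fun g : (ZMod 2)[X] => g.coeff i) h
      simpa using this
    have h3 : a.coeff i ∈ RingHom.ker (PadicInt.toZMod (p := 2)) := h2
    rw [PadicInt.ker_toZMod, PadicInt.maximalIdeal_eq_span_p, Ideal.mem_span_singleton] at h3
    exact_mod_cast h3
  obtain ⟨e, he⟩ := h1
  exact ⟨e, by rw [he]; rfl⟩

lemma isUnit_of_toZMod {a : ℤ_[2]} (h : PadicInt.toZMod (p := 2) a ≠ 0) : IsUnit a := by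
  by_contra hn
  apply h
  have h3 : a ∈ RingHom.ker (PadicInt.toZMod (p := 2)) := by
    rw [PadicInt.ker_toZMod]
    exact (IsLocalRing.mem_maximalIdeal a).2 hn
  exact h3

lemma toK_norm (f : ℤ_[2][X]) (z : AA f) :
    (toK f z).norm = z.norm.map (algebraMap ℤ_[2] ℚ_[2]) := by
  rw [QuadraticAlgebra.norm_def, QuadraticAlgebra.norm_def]
  show z.re.map _ * z.re.map _ + 0 * z.re.map _ * z.im.map _ - _ * z.im.map _ * z.im.map _ = _
  simp only [Polynomial.map_sub, Polynomial.map_add, Polynomial.map_mul, Polynomial.map_zero]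

lemma prim_of_r2 {a : ℤ_[2][X]} (h : r2 a ≠ 0) : a.IsPrimitive := by
  intro r hr
  apply isUnit_of_toZMod
  intro h0
  apply h
  obtain ⟨b, rfl⟩ := hr
  show (C r * b).map _ = 0
  rw [Polynomial.map_mul, map_C, h0, C_0, zero_mul]

lemma idn {R : Type*} [CommRing R] (a b e q : R) (h : b = a ^ 2 + 2 * e) :
    b + 2 * (-e + 2 * q * a + 2 * q ^ 2) = (a + 2 * q) ^ 2 := by rw [h]; ring

lemma mk_sq (f a b e : ℤ_[2][X]) (h : b = a * a + (e + e)) :
    (⟨b, 0⟩ : AA f) = ⟨a, 0⟩ ^ 2 + 2 * ⟨e, 0⟩ := by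
  rw [pow_two, two_mul, h]
  refine QuadraticAlgebra.ext ?_ ?_
  · rw [QuadraticAlgebra.re_add, QuadraticAlgebra.re_mul, QuadraticAlgebra.re_add]
    show _ = (a * a + f * 0 * 0 + (e + e))
    rw [mul_zero, add_zero]
  · rw [QuadraticAlgebra.im_add, QuadraticAlgebra.im_mul, QuadraticAlgebra.im_add]
    show _ = (a * 0 + 0 * a + 0 * 0 * 0) + ((0 : ℤ_[2][X]) + 0)
    simp

lemma norm_two (f a : ℤ_[2][X]) (q : AA f) : (⟨a, 0⟩ + 2 * q : AA f).norm =
    a ^ 2 + 2 * (2 * q.re * a + 2 * q.re ^ 2 - 2 * f * q.im ^ 2) := by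
  have e1 : (⟨a, 0⟩ + 2 * q : AA f).re = a + 2 * q.re := by
    rw [QuadraticAlgebra.re_add, two_mul, QuadraticAlgebra.re_add, ← two_mul]
  have e2 : (⟨a, 0⟩ + 2 * q : AA f).im = 2 * q.im := by
    rw [QuadraticAlgebra.im_add, two_mul, QuadraticAlgebra.im_add, ← two_mul, zero_add]
  rw [QuadraticAlgebra.norm_def, e1, e2]
  ring

lemma r2_two : ((2 : ℤ_[2][X])).map (PadicInt.toZMod (p := 2)) = 0 := by
  rw [show (2 : ℤ_[2][X]) = C 2 from rfl, map_C]
  have : PadicInt.toZMod (p := 2) (2 : ℤ_[2]) = 0 := by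
    rw [map_ofNat]; decide
  rw [this, C_0]

lemma r2_add_two (a b : ℤ_[2][X]) : r2 (a + 2 * b) = r2 a := by
  show (a + 2 * b).map _ = a.map _
  rw [Polynomial.map_add, Polynomial.map_mul, r2_two, zero_mul, add_zero]

lemma r2_norm (f : ℤ_[2][X]) (m : ℕ) (q : AA f) :
    r2 (⟨X ^ m, 0⟩ + 2 * q : AA f).norm = X ^ (2 * m) := by
  rw [norm_two, r2_add_two]
  show ((X ^ m) ^ 2 : ℤ_[2][X]).map _ = _
  rw [Polynomial.map_pow, Polynomial.map_pow, map_X, ← pow_mul, mul_comm]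

end basics

/-- Gauss' lemma. -/
lemma gauss {P v : ℤ_[2][X]} {m : ℕ} {κ : ℚ_[2]} {N : ℚ_[2][X]} (hv : r2 v = 1)
    (hP : r2 P = X ^ (2 * m)) (hN : N.Monic)
    (h : P.map (algebraMap ℤ_[2] ℚ_[2]) = C κ * (v.map (algebraMap ℤ_[2] ℚ_[2]) * N))
    (hdeg : P.natDegree = 2 * m + v.natDegree) :
    ∃ U E : ℤ_[2][X], U.Monic ∧ N = U.map (algebraMap ℤ_[2] ℚ_[2]) ∧
      U = X ^ m * X ^ m + (E + E) := by
  have hinj : Function.Injective (algebraMap ℤ_[2] ℚ_[2]) := IsFractionRing.injective _ _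
  have hvp : v.IsPrimitive := prim_of_r2 (by rw [hv]; exact one_ne_zero)
  have hP0 : r2 P ≠ 0 := by
    rw [hP]; exact pow_ne_zero _ X_ne_zero
  have hP00 : P ≠ 0 := by
    intro h0
    apply hP0
    rw [h0]
    exact Polynomial.map_zero _
  have hv00 : v ≠ 0 := by
    rintro rfl
    have : (0 : (ZMod 2)[X]) = 1 := by
      rw [← hv]; exact (Polynomial.map_zero _).symm
    exact zero_ne_one this
  have hv0 : v.map (algebraMap ℤ_[2] ℚ_[2]) ≠ 0 := by
    rwa [Ne, Polynomial.map_eq_zero_iff hinj]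
  obtain ⟨P1, hP1⟩ : v ∣ P := by
    refine hvp.dvd_of_fraction_map_dvd_fraction_map (K := ℚ_[2]) ?_
    rw [h]
    exact ⟨C κ * N, by ring⟩
  have hP10 : P1 ≠ 0 := by
    rintro rfl
    rw [mul_zero] at hP1
    exact hP00 hP1
  have hdegP1 : P1.natDegree = 2 * m := by
    rw [hP1, natDegree_mul hv00 hP10] at hdeg
    omega
  have hr2P1 : P1.map (PadicInt.toZMod (p := 2)) = X ^ (2 * m) := by
    have h1 : (v * P1).map (PadicInt.toZMod (p := 2)) = X ^ (2 * m) := by rw [← hP1]; exact hP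
    rw [Polynomial.map_mul] at h1
    rwa [show v.map (PadicInt.toZMod (p := 2)) = 1 from hv, one_mul] at h1
  have hlc1 : PadicInt.toZMod (p := 2) P1.leadingCoeff = 1 := by
    have h1 := congrArg (fun g : (ZMod 2)[X] => g.coeff (2 * m)) hr2P1
    simp only [coeff_map, coeff_X_pow, if_true] at h1
    rw [leadingCoeff, hdegP1]
    exact h1
  have hu : IsUnit P1.leadingCoeff := isUnit_of_toZMod (by rw [hlc1]; exact one_ne_zero)
  obtain ⟨t, ht⟩ := hu.exists_left_inv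
  have ht2 : PadicInt.toZMod (p := 2) t = 1 := by
    have := congrArg (PadicInt.toZMod (p := 2)) ht
    rwa [map_mul, hlc1, mul_one, map_one] at this
  have hUm : (C t * P1).Monic := by
    rw [Monic, leadingCoeff_mul, leadingCoeff_C, ht]
  have hUmap : N = (C t * P1).map (algebraMap ℤ_[2] ℚ_[2]) := by
    have h1 : P1.map (algebraMap ℤ_[2] ℚ_[2]) = C κ * N := by
      apply mul_left_cancel₀ hv0
      rw [← Polynomial.map_mul, ← hP1, h]
      ring
    have h2 : algebraMap ℤ_[2] ℚ_[2] P1.leadingCoeff = κ := by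
      have h3 := congrArg leadingCoeff h1
      rw [leadingCoeff_map_of_injective hinj, leadingCoeff_mul, leadingCoeff_C,
        hN.leadingCoeff, mul_one] at h3
      exact h3
    rw [Polynomial.map_mul, map_C, h1, ← mul_assoc, ← C_mul, ← h2, ← map_mul, ht, map_one, C_1,
      one_mul]
  obtain ⟨E, hE⟩ : ∃ E : ℤ_[2][X], C t * P1 - X ^ (2 * m) = 2 * E := by
    apply r2_zero_dvd
    show (C t * P1 - X ^ (2 * m)).map _ = 0
    rw [Polynomial.map_sub, Polynomial.map_mul, map_C, ht2, C_1, one_mul, Polynomial.map_pow,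
      map_X, hr2P1, sub_self]
  refine ⟨C t * P1, E, hUm, hUmap, ?_⟩
  have : C t * P1 = X ^ (2 * m) + 2 * E := by rw [← hE]; ring
  rw [this]
  ring

/-- The ideal. -/
lemma ideal {g : ℚ_[2][X]} [HF g] (G w : ℚ_[2][X]) (H : CR g) (hH0 : H ≠ 0) (hG : G.Monic)
    (hGd : G ∣ g - w ^ 2) (hmem : H ∈ mi g G (-w)) :
    ∃ (D : Ideal (CR g)) (κ : ℚ_[2]), D ≠ ⊥ ∧ cl D = cl (mi g G w) ∧ (nm D).Monic ∧
      H.norm = C κ * (G * nm D) ∧ H ∈ D := by
  have hGd' : G ∣ g - (-w) ^ 2 := by rwa [neg_sq]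
  have hGne : G ≠ 0 := hG.ne_zero
  obtain ⟨D, hD⟩ : mi g G (-w) ∣ Ideal.span {H} := by
    rw [Ideal.dvd_iff_le, Ideal.span_singleton_le_iff_mem]
    exact hmem
  have hDne : D ≠ ⊥ := by
    rintro rfl
    rw [Ideal.mul_bot] at hD
    exact span_ne hH0 hD
  have hmine : mi g G (-w) ≠ ⊥ := mi_ne hGne
  have hmine' : mi g G w ≠ ⊥ := mi_ne hGne
  have hcl : cl D = cl (mi g G w) := by
    have h1 := cl_span hH0
    rw [hD, cl_mul hmine hDne, ← bar_mi, cl_bar hmine', inv_mul_eq_one] at h1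
    exact h1.symm
  have hnm : nm (Ideal.span {H}) = G * nm D := by
    rw [hD, nm_mul hmine hDne, nm_mi hG hGd']
  refine ⟨D, (-1) ^ H.norm.natDegree * lead H ^ 2, hDne, hcl, (nm_spec hDne).1, ?_, ?_⟩
  · rw [← hnm]
    exact (nm_span hH0).1
  · have h2 : H ∈ Ideal.span {H} := Ideal.mem_span_singleton_self _
    rw [hD] at h2
    exact Ideal.mul_le_right h2

theorem infa : S_INFA := by
  intro f _ hf v c w m q hv hG hGd hdeg hmem
  have hinj : Function.Injective (algebraMap ℤ_[2] ℚ_[2]) := IsFractionRing.injective _ _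
  have hr := r2_norm f m q
  have hsq : ∀ U E : ℤ_[2][X], U = X ^ m * X ^ m + (E + E) →
      (⟨U, 0⟩ + 2 * (-⟨E, 0⟩ + 2 * q * ⟨X ^ m, 0⟩ + 2 * q ^ 2) : AA f) =
      (⟨X ^ m, 0⟩ + 2 * q) ^ 2 := fun U E hU => idn _ _ _ _ (mk_sq f _ _ _ hU)
  generalize (⟨X ^ m, 0⟩ + 2 * q : AA f) = H at hr hdeg hmem hsq
  have hH0 : toK f H ≠ 0 := by
    intro h0
    have h1 := toK_norm f H
    rw [h0, QuadraticAlgebra.norm_zero, eq_comm, Polynomial.map_eq_zero_iff hinj] at h1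
    rw [h1] at hr
    have h2 : (0 : (ZMod 2)[X]) = X ^ (2 * m) := by
      rw [← hr]; exact (Polynomial.map_zero _).symm
    exact pow_ne_zero _ X_ne_zero h2.symm
  obtain ⟨D, κ, hD, hcl, hm, hn, hHD⟩ := ideal _ w (toK f H) hH0 hG hGd hmem
  rw [toK_norm] at hn
  obtain ⟨U, E, hU, hNU, hUE⟩ := gauss (κ := κ * c) (N := nm D) hv hr hm
    (by rw [hn, C_mul]; ring) hdeg
  refine ⟨D, U, -⟨E, 0⟩ + 2 * q * ⟨X ^ m, 0⟩ + 2 * q ^ 2, hD, hcl, hU, hNU, ?_⟩
  rw [hsq U E hUE, map_pow]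
  exact Ideal.pow_mem_pow hHD 2

end Pool.Agent.N126.PY
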